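import Pool.Agent.R553.CL.Defs
import Pool.Agent.Results.MP_17cbde_lc.NPHard
import Pool.Agent.NPC.Dec
import Pool.Agent.H671R2.PolyAuto

/-!
# MP_1a3fd7_lc: minimum-weight constrained outerplane Laman graphs are NP-hard to find
-/

namespace Pool.Agent.Results.MP_1a3fd7_lc.ConstrainedNPHard

open Pool.Agent.NPC Pool.Agent.H883R2.OL Pool.Agent.R553.CL

/-- Given a finite set `S` of points with integer coordinates, an outerplane drawing `D` on `S` and
an integer `W`, it is NP-hard to decide whether there is a `D`-constrained outerplane Laman graph on
`S` of weight at most `W`. -/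
theorem result : NPHardP MinConstrained := by
  refine NPHardP.of_poly Pool.Agent.Results.MP_17cbde_lc.NPHard.result
    (f := fun x : List Pt × ℤ => (x.1, ([] : List (Pt × Pt)), x.2)) (by fun_prop) fun x => ?_
  have h : edgeSet [] = ∅ := rfl
  unfold MinLaman MinConstrained
  simp only [h, Finset.empty_subset, true_and]
  exact (and_iff_right (outerplane_empty _)).symm

end Pool.Agent.Results.MP_1a3fd7_lc.ConstrainedNPHard
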